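import Mathlib
import Pool.Agent.H16.AB.Dyn
import Pool.Agent.H16.AB.Dens
import Pool.Agent.H16.AB.Cyc
import Pool.Agent.H16.AB.Kum

/-!
# Hénon maps without periodic points over maximal abelian extensions

Let `K` be a number field of degree `n`, `B ≥ 1` and `R` real. For 100 percent of the constant terms
`c = a / b` (`a, b ∈ 𝓞 K`, ordered by the coordinates in an integral basis) the following holds for
ALL generalized Hénon maps `f(x, y) = (y, F(y) - δ x)` over `K` with `F(0) = c`, of any degree `d`
such that some automorphism over `K` moves the `d`-th roots of unity (`Moved K d B`), for all finite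
sets `T` of primes of `K` which contain the bad primes of `f` and the primes dividing `d`, and for
all points `P ∈ L²` with coordinates in ANY finite extension `L` of `K` which is abelian over an
intermediate field of degree at most `B` over `K`: the sum of the absolute heights of `f^(k+1) (P)`
and `f^(-k-1) (P)` is at least `d ^ k (R - logNorm T)`. So, if `logNorm T < R`, then `f` has no
periodic point over the maximal abelian extension `E^ab` of any `E ⊇ K` with `[E : K] ≤ B`.
Bad primes are those where `δ` or one of the coefficients `a_1, ..., a_d` of `F` is not integral or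
`a_d` is not a unit; there is no restriction on the sizes of `δ` and of the `a_i`.

`Moved K d B` holds for all `d` larger than a bound which depends only on `B` and `n`, if `d` has a
prime factor larger than `n B + 1`, if `d` has a prime power factor larger than `B * 3 ^ (n B)`, and,
for `B = 1`, for all `d` such that `K` does not contain the `d`-th roots of unity. The last condition
is sharp: if `K` contains the `d`-th roots of unity then for EVERY `c` the map
`f(x, y) = (y, y ^ d + c + x)`, which has no bad primes, has a fixed point over `K^ab`.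

Proof: in an abelian extension of `E` the ramification index at a prime `w` of residue
characteristic `p` divides `(q - 1) p ^ s`, where `q` is the norm of the prime of `E` below `w`: a
Frobenius element at `w` commutes with the inertia group, which acts on the cotangent space by
multiplication by elements of the residue field that are fixed by the `q`-power map. By Chebotarev's
theorem there are many primes `v` of `K` such that `d` divides none of the numbers
`i (N v ^ j - 1)` with `i j ≤ B`. For almost all pairs `(a, b)` the fraction `c` has a simple pole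
at such a `v`, and then `d` divides none of the ramification indices of `L` above `v`, so that
`|F(y)|_w = max (|y|_w ^ d, |c|_w)` for `|y|_w > 1`, and every point escapes at `w`.
-/

set_option autoImplicit false
set_option linter.unusedSectionVars false

namespace Pool.Agent.Results.MP_0e6b5f_nt.AbelianPoints

open NumberField Polynomial IsDedekindDomain Filter Topology

universe v

section Defs

/-- the absolute logarithmic height of an element -/
noncomputable def h {K : Type} [Field K] [NumberField K] (x : K) : ℝ :=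
  Height.logHeight₁ x / Module.finrank ℚ K

/-- the absolute logarithmic height of the point `(1 : x : y)` -/
noncomputable def height {L : Type} [Field L] [NumberField L] (P : L × L) : ℝ :=
  Height.logHeight ![1, P.1, P.2] / Module.finrank ℚ L

variable {K : Type} [Field K] [NumberField K]

/-- the generalized Hénon map `f(x, y) = (y, F(y) - δ x)` on `L²` -/
noncomputable def henon (L : Type) [Field L] [NumberField L] [Algebra K L] (F : K[X]) (δ : K)
    (P : L × L) : L × L := (P.2, aeval P.2 F - algebraMap K L δ * P.1)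

/-- its inverse -/
noncomputable def henonInv (L : Type) [Field L] [NumberField L] [Algebra K L] (F : K[X]) (δ : K)
    (P : L × L) : L × L := ((aeval P.1 F - P.2) / algebraMap K L δ, P.1)

/-- the sum of the heights of `δ`, of `a_d`, and of `a_1, ..., a_d` -/
noncomputable def others (F : K[X]) (δ : K) : ℝ :=
  h δ + h F.leadingCoeff + ∑ i ∈ Finset.range F.natDegree, h (F.coeff (i + 1))

/-- the finite set `T` contains all bad primes: outside `T`, `δ` and the coefficients
`a_1, ..., a_d` are integral and `a_d` is a unit -/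
def ContainsBad (F : K[X]) (δ : K) (T : Finset (HeightOneSpectrum (𝓞 K))) : Prop :=
  ∀ v, v ∉ T → ((∀ i, 1 ≤ i → FinitePlace.mk v (F.coeff i) ≤ 1) ∧
    FinitePlace.mk v F.leadingCoeff = 1) ∧ FinitePlace.mk v δ ≤ 1

/-- the sum of `log N v / n` over the primes in `T` -/
noncomputable def logNorm (T : Finset (HeightOneSpectrum (𝓞 K))) : ℝ :=
  (∑ v ∈ T, Real.log (Ideal.absNorm v.asIdeal)) / Module.finrank ℚ K

/-- `L` is a Galois extension with commutative Galois group of an intermediate field of degree at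
most `B` over `K`. -/
def AbelianOver (B : ℕ) (K L : Type) [Field K] [Field L] [Algebra K L] : Prop :=
  ∃ E : IntermediateField K L, Module.finrank K E ≤ B ∧ IsGalois E L ∧
    ∀ σ τ : L ≃ₐ[E] L, σ * τ = τ * σ

/-- There are a `d`-th root of unity `ζ` and an automorphism `σ` over `K` of the algebraic closure
such that `σ ^ j` does not fix `ζ ^ i` whenever `i j ≤ B`. For `B = 1`: the `d`-th roots of unity are
not all in `K`. -/
def Moved (K : Type) [Field K] (d B : ℕ) : Prop :=
  ∃ (ζ : AlgebraicClosure K) (σ : AlgebraicClosure K ≃ₐ[K] AlgebraicClosure K), ζ ^ d = 1 ∧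
    ∀ i j : ℕ, 1 ≤ i → 1 ≤ j → i * j ≤ B → (σ ^ j) (ζ ^ i) ≠ ζ ^ i

/-- the constant term has a simple pole at `v`, the other coefficients and `δ` are integral at `v`,
the leading coefficient and the degree `d` are units at `v`, and `d` does not divide
`i (N v ^ j - 1)` for `i j ≤ B` -/
def PoleAt (B : ℕ) (F : K[X]) (δ : K) (v : HeightOneSpectrum (𝓞 K)) : Prop :=
  FinitePlace.mk v (F.coeff 0) = (Ideal.absNorm v.asIdeal : ℝ) ∧
    (∀ i, 1 ≤ i → FinitePlace.mk v (F.coeff i) ≤ 1) ∧ FinitePlace.mk v F.leadingCoeff = 1 ∧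
    FinitePlace.mk v δ ≤ 1 ∧ FinitePlace.mk v (F.natDegree : K) = 1 ∧
    ∀ i j : ℕ, 1 ≤ i → 1 ≤ j → i * j ≤ B →
      ¬ F.natDegree ∣ i * (Ideal.absNorm v.asIdeal ^ j - 1)

/-- all Hénon maps with constant term `c` push all points over abelian extensions of fields of degree
at most `B` away, under the map or under its inverse -/
def Escapes (B : ℕ) (R : ℝ) (c : K) : Prop :=
  ∀ (F : K[X]) (δ : K), 2 ≤ F.natDegree → F.coeff 0 = c → δ ≠ 0 → Moved K F.natDegree B →
    ∀ T : Finset (HeightOneSpectrum (𝓞 K)), ContainsBad F δ T →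
    (∀ v, v ∉ T → FinitePlace.mk v (F.natDegree : K) = 1) →
    ∀ (L : Type) [Field L] [NumberField L] [Algebra K L], AbelianOver B K L →
      ∀ (P : L × L) (k : ℕ), F.natDegree ^ k * (R - logNorm T) ≤
        height ((henon L F δ)^[k + 1] P) + height ((henonInv L F δ)^[k + 1] P)

/-- the pairs `(a, b)` of integers of `K` with small coordinates in the basis `ω` -/
def Box {J : Type v} (ω : Module.Basis J ℤ (𝓞 K)) (H : ℕ) : Set (Fin 2 → 𝓞 K) :=
  {c | ∀ i j, |ω.repr (c i) j| ≤ (H : ℤ)}

/-- the exceptional pairs `(a, b)`: `b = 0` or `a / b` does not have the property `Escapes B R` -/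
def Exc (K : Type) [Field K] [NumberField K] (B : ℕ) (R : ℝ) : Set (Fin 2 → 𝓞 K) :=
  {c | ¬ (c 1 ≠ 0 ∧ Escapes B R ((c 0 : K) / (c 1 : K)))}

end Defs

open Pool.Agent.Y733.UD Pool.Agent.Y733.LS Pool.Agent.Y733.DYN Pool.Agent.W223.AK
open Pool.Agent.Y733.HEN Pool.Agent.H691R3

section Aux

variable {K : Type} [Field K] [NumberField K]

theorem n_pos : (0 : ℝ) < Module.finrank ℚ K := by
  linarith [finrank_one_le K]

theorem henon_eq (L : Type) [Field L] [NumberField L] [Algebra K L] (F : K[X]) (δ : K) :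
    henon L F δ = henL L F δ := by
  funext P
  unfold henon henL hen
  rw [eval_map_algebraMap]

theorem henonInv_eq (L : Type) [Field L] [NumberField L] [Algebra K L] (F : K[X]) (δ : K) :
    henonInv L F δ = invL L F δ := by
  funext P
  unfold henonInv invL inv
  rw [eval_map_algebraMap]

theorem others_eq (F : K[X]) (δ : K) : others F δ = oth F δ / Module.finrank ℚ K := by
  unfold others oth h
  rw [add_div, add_div, Finset.sum_div, ht_log, ht_log]
  simp only [ht_log]

theorem height_nonneg {L : Type} [Field L] [NumberField L] (P : L × L) : 0 ≤ height P := by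
  unfold height
  exact div_nonneg (Height.logHeight_nonneg _) (Nat.cast_nonneg _)

/-- a simple pole -/
theorem pole_fv {v : Pr K} {c : Fin 2 → 𝓞 K} (hv : Pool.Agent.H16.AB.Pole v c) :
    c 1 ≠ 0 ∧ fv v ((c 0 : K) / (c 1 : K)) = Nv v := by
  obtain ⟨h1, h2, h3⟩ := hv
  have h0 : c 1 ≠ 0 := by
    intro h
    rw [h] at h3
    exact h3 (Ideal.zero_mem _)
  refine ⟨h0, ?_⟩
  have hN := Nv_one_lt v
  have hb0 : (c 1 : K) ≠ 0 := RingOfIntegers.coe_ne_zero_iff.2 h0
  obtain ⟨k, hk⟩ := fv_zpow v hb0
  have h4 := (fv_le_pow_iff v (c 1) 1).2 (by rwa [pow_one])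
  have h5 : ¬ fv v (c 1 : K) ≤ Nv v ^ (-((2 : ℕ) : ℤ)) := fun h => h3 ((fv_le_pow_iff v (c 1) 2).1 h)
  rw [hk, zpow_le_zpow_iff_right₀ hN] at h4 h5
  push_cast at h4 h5
  have h6 : k = -1 := by omega
  rw [map_div₀, fv_eq_one_of_notMem v h1, hk, h6, zpow_neg_one, one_div, inv_inv]

theorem esc_of {B m : ℕ} {R : ℝ} (hm : Module.finrank ℚ K * R ≤ Real.log (m + 1))
    {c : Fin 2 → 𝓞 K} (hc : c ∉ Pool.Agent.H16.AB.ExcP K B m) :
    Escapes B R ((c 0 : K) / (c 1 : K)) := by
  intro F δ hd hF hδ hmov T hT hTd L _ _ _ hL P k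
  have hn := n_pos (K := K)
  have hml : (0 : ℝ) < Module.finrank ℚ L := n_pos (K := L)
  have hex : ∃ v : Pr K, Pool.Agent.H16.AB.Pole v c ∧ m < Ideal.absNorm v.asIdeal ∧
      (((F.natDegree : ℕ) : 𝓞 K) ∈ v.asIdeal ∨ Pool.Agent.H16.AB.Cy F.natDegree B v) := by
    by_contra hcon
    exact hc ⟨F.natDegree, hd, hmov, hcon⟩
  obtain ⟨v, hP, hmv, hcy⟩ := hex
  have hlog : Module.finrank ℚ K * R ≤ Real.log (Nv v) := by
    refine hm.trans (Real.log_le_log (by positivity) ?_)
    unfold Nv
    exact_mod_cast hmv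
  have hR : R ≤ Real.log (Nv v) / Module.finrank ℚ K := by
    rw [le_div_iff₀ hn, mul_comm]
    exact hlog
  by_cases hvT : v ∈ T
  · -- the right hand side is not negative
    have h1 : R - logNorm T ≤ 0 := by
      have h2 : Real.log (Nv v) / Module.finrank ℚ K ≤ logNorm T := by
        unfold logNorm
        apply div_le_div_of_nonneg_right _ hn.le
        exact Finset.single_le_sum (f := fun w : Pr K => Real.log (Ideal.absNorm w.asIdeal : ℝ))
          (fun w _ => (log_Nv_pos w).le) hvT
      linarith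
    have h2 : (F.natDegree : ℝ) ^ k * (R - logNorm T) ≤ 0 :=
      mul_nonpos_of_nonneg_of_nonpos (by positivity) h1
    have h3 := height_nonneg ((henon L F δ)^[k + 1] P)
    have h4 := height_nonneg ((henonInv L F δ)^[k + 1] P)
    linarith
  · obtain ⟨⟨g1, g2⟩, g3⟩ := hT v hvT
    have hcy' : Pool.Agent.H16.AB.Cy F.natDegree B v := by
      refine hcy.resolve_left fun hmem => ?_
      have h1 := hTd v hvT
      have h2 : fv v (((F.natDegree : ℕ) : 𝓞 K) : K) < 1 := (fv_lt_one_iff v).2 hmem
      have h3 : (((F.natDegree : ℕ) : 𝓞 K) : K) = (F.natDegree : K) := by simp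
      rw [h3] at h2
      exact absurd h1 h2.ne
    have hok : Pool.Agent.H16.AB.OkA B F δ v :=
      ⟨by rw [hF]; exact (pole_fv hP).2, g1, g2, g3, hcy'⟩
    have h1 := Pool.Agent.H16.AB.iter_ab hd hδ hL hok P k
    have e1 : (Module.finrank ℚ L : ℝ) = Module.finrank ℚ K * Module.finrank K L := by
      exact_mod_cast (Module.finrank_mul_finrank ℚ K L).symm
    rw [henon_eq, henonInv_eq]
    unfold height
    rw [← add_div, le_div_iff₀ hml, e1]
    refine le_trans ?_ h1
    have hT0 : 0 ≤ logNorm T := by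
      unfold logNorm
      exact div_nonneg (Finset.sum_nonneg fun w _ => (log_Nv_pos w).le) hn.le
    have h2 : Module.finrank ℚ K * (R - logNorm T) ≤ Real.log (Nv v) := by
      have := mul_nonneg hn.le hT0
      linarith
    have h3 := mul_le_mul_of_nonneg_left h2
      (by positivity : 0 ≤ (F.natDegree : ℝ) ^ k * Module.finrank K L)
    calc (F.natDegree : ℝ) ^ k * (R - logNorm T) *
          (Module.finrank ℚ K * Module.finrank K L) =
        (F.natDegree : ℝ) ^ k * Module.finrank K L *
          (Module.finrank ℚ K * (R - logNorm T)) := by ring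
      _ ≤ _ := h3
      _ = _ := by ring

theorem exc_sub (B : ℕ) (R : ℝ) : ∃ m : ℕ, Exc K B R ⊆ Pool.Agent.H16.AB.ExcP K B m := by
  refine ⟨⌈Real.exp (Module.finrank ℚ K * R)⌉₊, fun c hc => ?_⟩
  set m := ⌈Real.exp (Module.finrank ℚ K * R)⌉₊ with hm
  by_contra hcon
  apply hc
  have hlog : Module.finrank ℚ K * R ≤ Real.log (m + 1) := by
    rw [Real.le_log_iff_exp_le (by positivity)]
    have := Nat.le_ceil (Real.exp (Module.finrank ℚ K * R))
    rw [← hm] at this
    linarith
  refine ⟨?_, esc_of hlog hcon⟩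
  -- the denominator is not zero
  have h1 : ∃ v : Pr K, Pool.Agent.H16.AB.Pole v c := by
    by_contra hno
    apply hcon
    refine ⟨max 2 ((B * 3 ^ (Module.finrank ℚ K * B)).factorial + 1), le_max_left _ _,
      Pool.Agent.H16.AB.cyc_of_large ?_, fun ⟨v, hv, _⟩ => hno ⟨v, hv⟩⟩
    exact lt_of_lt_of_le (Nat.lt_succ_self _) (le_max_right _ _)
  obtain ⟨v, hv⟩ := h1
  exact (pole_fv hv).1

end Aux

theorem part_one (K : Type) [Field K] [NumberField K] (B : ℕ) (R : ℝ) (J : Type v) [Fintype J]
    (ω : Module.Basis J ℤ (𝓞 K)) :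
    Tendsto (fun H : ℕ => ((Exc K B R ∩ Box ω H).ncard : ℝ) / ((Box ω H).ncard : ℝ)) atTop
      (𝓝 0) := by
  obtain ⟨m, hm⟩ := exc_sub (K := K) B R
  refine squeeze_zero (fun H => by positivity) (fun H => ?_)
    (Pool.Agent.H16.AB.tendsto_exc ω B m)
  refine div_le_div_of_nonneg_right ?_ (Nat.cast_nonneg _)
  have h1 : (Exc K B R ∩ Box ω H).ncard ≤
      (Pool.Agent.H16.AB.ExcP K B m ∩ Pool.Agent.TH377.Dyn.BoxD ω 2 H).ncard :=
    Set.ncard_le_ncard (Set.inter_subset_inter_left _ hm)
      ((Pool.Agent.H16.AB.boxD_finite ω 2 H).subset Set.inter_subset_right)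
  exact_mod_cast h1

theorem box_card {K : Type} [Field K] [NumberField K] {J : Type v} [Fintype J]
    (ω : Module.Basis J ℤ (𝓞 K)) (H : ℕ) :
    (Box ω H).ncard = ((2 * H + 1) ^ Module.finrank ℚ K) ^ 2 := by
  have h1 : Fintype.card J = Module.finrank ℚ K := by
    rw [← RingOfIntegers.rank, Module.finrank_eq_card_basis ω]
  rw [← h1]
  exact Pool.Agent.TH377.Dyn.box_card ω 2 H

/-- the inverse -/
theorem part_six {K : Type} [Field K] [NumberField K] (L : Type) [Field L] [NumberField L]
    [Algebra K L] (F : K[X]) (δ : K) (hδ : δ ≠ 0) (P : L × L) :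
    henonInv L F δ (henon L F δ P) = P ∧ henon L F δ (henonInv L F δ P) = P := by
  have hδ' : algebraMap K L δ ≠ 0 := by
    rwa [Ne, map_eq_zero_iff _ (algebraMap K L).injective]
  rw [henon_eq, henonInv_eq]
  exact ⟨inv_hen hδ' P, hen_inv hδ' P⟩

/-- growth of heights excludes periodic points -/
theorem not_periodic {K : Type} [Field K] [NumberField K] (L : Type) [Field L] [NumberField L]
    [Algebra K L] (F : K[X]) (δ : K) (hd : 2 ≤ F.natDegree) (hδ : δ ≠ 0) (P : L × L) {t : ℝ}
    (ht : 0 < t) (hk : ∀ k : ℕ, (F.natDegree : ℝ) ^ k * t ≤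
      height ((henon L F δ)^[k + 1] P) + height ((henonInv L F δ)^[k + 1] P))
    (m : ℕ) (hm : 1 ≤ m) : (henon L F δ)^[m] P ≠ P := by
  intro hper
  set f := henon L F δ with hf
  set g := henonInv L F δ with hg
  have hfg : ∀ Q, g (f Q) = Q := fun Q => (part_six L F δ hδ Q).1
  have hinv : ∀ k : ℕ, ∀ Q, g^[k] (f^[k] Q) = Q := fun k => Function.LeftInverse.iterate hfg k
  have hperj : ∀ j : ℕ, f^[m * j] P = P := by
    intro j
    rw [Function.iterate_mul]
    induction j with
    | zero => rfl
    | succ j ih => rw [Function.iterate_succ', Function.comp_apply, ih, hper]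
  have hperg : ∀ j : ℕ, g^[m * j] P = P := by
    intro j
    have := hinv (m * j) P
    rwa [hperj j] at this
  obtain ⟨j, hj⟩ := pow_unbounded_of_one_lt ((height P + height P) / t) (one_lt_two)
  have h1 := hk (m * (j + 1) - 1)
  have e1 : m * (j + 1) - 1 + 1 = m * (j + 1) := by
    have : 1 ≤ m * (j + 1) := Nat.mul_pos hm (Nat.succ_pos j)
    omega
  rw [e1, hperj (j + 1), hperg (j + 1)] at h1
  have h2 : j ≤ m * (j + 1) - 1 := by
    have : j + 1 ≤ m * (j + 1) := Nat.le_mul_of_pos_left _ hm
    omega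
  have h3 : (2 : ℝ) ^ j ≤ (F.natDegree : ℝ) ^ (m * (j + 1) - 1) := by
    have hd' : (2 : ℝ) ≤ F.natDegree := by exact_mod_cast hd
    calc (2 : ℝ) ^ j ≤ (F.natDegree : ℝ) ^ j := pow_le_pow_left₀ (by norm_num) hd' _
      _ ≤ _ := pow_le_pow_right₀ (by linarith) h2
  rw [div_lt_iff₀ ht] at hj
  have h5 := mul_le_mul_of_nonneg_right h3 ht.le
  linarith

/-- no periodic points -/
theorem part_two {K : Type} [Field K] [NumberField K] {B : ℕ} {R : ℝ} {c : K}
    (hc : Escapes B R c) (F : K[X]) (δ : K) (hd : 2 ≤ F.natDegree) (hF : F.coeff 0 = c)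
    (hδ : δ ≠ 0) (hmov : Moved K F.natDegree B)
    (T : Finset (HeightOneSpectrum (𝓞 K))) (hT : ContainsBad F δ T)
    (hTd : ∀ v, v ∉ T → FinitePlace.mk v (F.natDegree : K) = 1)
    (hoth : logNorm T < R) (L : Type) [Field L] [NumberField L]
    [Algebra K L] (hL : AbelianOver B K L) (P : L × L) (m : ℕ) (hm : 1 ≤ m) :
    (henon L F δ)^[m] P ≠ P :=
  not_periodic L F δ hd hδ P (by linarith : 0 < R - logNorm T)
    (fun k => hc F δ hd hF hδ hmov T hT hTd L hL P k) m hm

/-- the criterion at one prime -/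
theorem part_eight {K : Type} [Field K] [NumberField K] {B : ℕ} (F : K[X]) (δ : K)
    (hd : 2 ≤ F.natDegree) (hδ : δ ≠ 0) (v : HeightOneSpectrum (𝓞 K))
    (hv : PoleAt B F δ v) (L : Type) [Field L] [NumberField L]
    [Algebra K L] (hL : AbelianOver B K L) (P : L × L) :
    (∀ k : ℕ, F.natDegree ^ k * (Real.log (Ideal.absNorm v.asIdeal) / Module.finrank ℚ K) ≤
      height ((henon L F δ)^[k + 1] P) + height ((henonInv L F δ)^[k + 1] P)) ∧
    ∀ m : ℕ, 1 ≤ m → (henon L F δ)^[m] P ≠ P := by
  obtain ⟨g0, g1, g2, g3, g4, g5⟩ := hv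
  have hn := n_pos (K := K)
  have hml : (0 : ℝ) < Module.finrank ℚ L := n_pos (K := L)
  have hmem : ((F.natDegree : ℕ) : 𝓞 K) ∉ v.asIdeal := by
    intro hmem
    have h2 : fv v (((F.natDegree : ℕ) : 𝓞 K) : K) < 1 := (fv_lt_one_iff v).2 hmem
    have h3 : (((F.natDegree : ℕ) : 𝓞 K) : K) = (F.natDegree : K) := by simp
    rw [h3] at h2
    exact absurd g4 h2.ne
  have hok : Pool.Agent.H16.AB.OkA B F δ v := ⟨g0, g1, g2, g3, hmem, g5⟩
  have key : ∀ k : ℕ, (F.natDegree : ℝ) ^ k *
      (Real.log (Ideal.absNorm v.asIdeal) / Module.finrank ℚ K) ≤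
      height ((henon L F δ)^[k + 1] P) + height ((henonInv L F δ)^[k + 1] P) := by
    intro k
    have h1 := Pool.Agent.H16.AB.iter_ab hd hδ hL hok P k
    have e1 : (Module.finrank ℚ L : ℝ) = Module.finrank ℚ K * Module.finrank K L := by
      exact_mod_cast (Module.finrank_mul_finrank ℚ K L).symm
    rw [henon_eq, henonInv_eq]
    unfold height
    rw [← add_div, le_div_iff₀ hml, e1]
    refine le_trans (le_of_eq ?_) h1
    have e3 : Real.log (Ideal.absNorm v.asIdeal : ℝ) = Real.log (Nv v) := rfl
    rw [e3]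
    field_simp
  refine ⟨key, fun m hm => not_periodic L F δ hd hδ P ?_ key m hm⟩
  exact div_pos (log_Nv_pos v) hn

/-- the bad primes and the primes dividing the degree -/
theorem part_seven {K : Type} [Field K] [NumberField K] (F : K[X]) (δ : K)
    (hd : 1 ≤ F.natDegree) :
    ∃ T : Finset (HeightOneSpectrum (𝓞 K)), ContainsBad F δ T ∧
      (∀ v, v ∉ T → FinitePlace.mk v (F.natDegree : K) = 1) ∧
      logNorm T ≤ others F δ + h (F.natDegree : K) := by
  classical
  have hF : F ≠ 0 := by
    rintro rfl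
    simp at hd
  have hd0 : (F.natDegree : K) ≠ 0 := Nat.cast_ne_zero.2 (by omega)
  obtain ⟨T1, h1, h2⟩ := exists_T F δ hF hd
  obtain ⟨T2, h3, h4⟩ := exists_T (X : K[X]) ((F.natDegree : K)⁻¹) X_ne_zero (by simp)
  have hone : ht (1 : K) = 0 := by rw [← ht_log, Height.logHeight₁_one]
  have h5 : oth (X : K[X]) ((F.natDegree : K)⁻¹) = ht (F.natDegree : K) := by
    unfold oth
    rw [natDegree_X, Finset.sum_range_one, leadingCoeff_X, zero_add, coeff_X_one, hone, ← ht_log,
      Height.logHeight₁_inv, ht_log]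
    ring
  rw [h5] at h4
  refine ⟨T1 ∪ T2, fun v hv => h1 v (fun h => hv (Finset.mem_union_left _ h)), fun v hv => ?_, ?_⟩
  · have h6 := (h3 v (fun h => hv (Finset.mem_union_right _ h))).2
    rw [map_inv₀] at h6
    have h7 : fv v (F.natDegree : K) ≤ 1 := by
      have h8 := fv_int_le_one v ((F.natDegree : ℕ) : 𝓞 K)
      have h9 : (((F.natDegree : ℕ) : 𝓞 K) : K) = (F.natDegree : K) := by simp
      rwa [h9] at h8
    have h10 : 0 < fv v (F.natDegree : K) := (fv v).pos hd0
    have h11 : 1 ≤ fv v (F.natDegree : K) := (inv_le_one₀ h10).1 h6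
    exact le_antisymm h7 h11
  · rw [others_eq]
    unfold logNorm h
    rw [ht_log, ← add_div]
    refine div_le_div_of_nonneg_right ?_ n_pos.le
    have h6 : T1 ∪ T2 = T1 ∪ (T2 \ T1) := by rw [Finset.union_sdiff_self_eq_union]
    rw [h6, Finset.sum_union Finset.disjoint_sdiff]
    have h7 : ∑ v ∈ T2 \ T1, Real.log (Ideal.absNorm v.asIdeal : ℝ) ≤
        ∑ v ∈ T2, Real.log (Ideal.absNorm v.asIdeal : ℝ) :=
      Finset.sum_le_sum_of_subset_of_nonneg Finset.sdiff_subset
        fun v _ _ => (log_Nv_pos v).le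
    have h8 : ∑ v ∈ T1, Real.log (Ideal.absNorm v.asIdeal : ℝ) ≤ oth F δ := h2
    have h9 : ∑ v ∈ T2, Real.log (Ideal.absNorm v.asIdeal : ℝ) ≤ ht (F.natDegree : K) := h4
    linarith

/-- the examples -/
theorem part_four {K : Type} [Field K] [NumberField K] {d : ℕ} (hd : 2 ≤ d)
    (hz : ∃ z : K, IsPrimitiveRoot z d) (c : K) :
    (X ^ d + C c : K[X]).natDegree = d ∧ (X ^ d + C c : K[X]).coeff 0 = c ∧
      ContainsBad (X ^ d + C c : K[X]) (-1) ∅ ∧
      ∃ (L : Type) (_ : Field L) (_ : NumberField L) (_ : Algebra K L),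
        AbelianOver 1 K L ∧ ∃ P : L × L, henon L (X ^ d + C c : K[X]) (-1) P = P := by
  obtain ⟨z, hz⟩ := hz
  have h1 : (X ^ d + C c : K[X]).natDegree = d := natDegree_X_pow_add_C
  have h2 : (X ^ d + C c : K[X]).leadingCoeff = 1 := leadingCoeff_X_pow_add_C (by omega)
  refine ⟨h1, ?_, ?_, ?_⟩
  · rw [coeff_add, coeff_X_pow, coeff_C_zero, if_neg (by omega), zero_add]
  · intro v _
    refine ⟨⟨fun i hi => ?_, ?_⟩, ?_⟩
    · rw [coeff_add, coeff_X_pow, coeff_C, if_neg (by omega : ¬ i = 0), add_zero]
      split_ifs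
      · exact (map_one (fv v)).le
      · exact (map_zero (fv v)).le.trans zero_le_one
    · rw [h2]
      exact map_one (fv v)
    · have h3 : fv v (-1 : K) = 1 := by rw [AbsoluteValue.map_neg, map_one]
      exact h3.le
  · obtain ⟨L, i1, i2, i3, hgal, hcomm, y, hy⟩ :=
      Pool.Agent.H16.AB.exists_kummer (by omega : 1 ≤ d) hz (-c)
    refine ⟨L, i1, i2, i3, Pool.Agent.H16.AB.abOver_of_comm hcomm le_rfl, (y, y), ?_⟩
    unfold henon
    simp only [map_add, map_pow, aeval_X, aeval_C, map_neg, map_one]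
    rw [hy, map_neg]
    ext
    · rfl
    · simp

/-- **Main theorem.**
(1) For every number field `K` and all `B` and `R`, for almost all pairs `(a, b)` of integers of `K`,
ordered by the coordinates in an integral basis, `b ≠ 0` and `a / b` has the property `Escapes B R`.
(2) If `c` has the property `Escapes B R`, then no Hénon map over `K` with constant term `c`, of
degree `d` with `Moved K d B`, and such that `T` contains the bad primes and the primes dividing `d`,
`logNorm T < R`, has a periodic point over a finite extension of `K` which is an abelian extension of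
an intermediate field of degree at most `B`.
(3) `Moved K d B` holds if `d` has a prime factor larger than `n B + 1`; if `d` has a
prime power factor larger than `B * 3 ^ (n B)`; for all `d > (B * 3 ^ (n B))!`; and, if `B = 1`, if
`K` does not contain a primitive `d`-th root of unity (`n = [K : ℚ]`).
(4) If `K` contains a primitive `d`-th root of unity, then for every `c ∈ K` the Hénon map
`f(x, y) = (y, y ^ d + c + x)`, which has no bad primes, has a fixed point over an abelian extension
of `K`.
(5) `henonInv` is the inverse of `henon`.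
(6) There is `T` as in (2) with `logNorm T` at most the sum of the heights of `δ`, of `a_d`, of
`a_1, ..., a_d` and of `d`.
(7) The boxes have `(2 H + 1) ^ (2 n)` elements.
(8) Explicit criterion at one prime `v` for one map: if `PoleAt B F δ v`, then the heights grow at
all points over the extensions in (2), with `log N v / n` in place of `R - logNorm T`, and there are
no periodic points over these extensions. -/
theorem result :
    (∀ (K : Type) [Field K] [NumberField K] (B : ℕ) (R : ℝ) (J : Type v) [Fintype J]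
      (ω : Module.Basis J ℤ (𝓞 K)),
      Tendsto (fun H : ℕ => ((Exc K B R ∩ Box ω H).ncard : ℝ) / ((Box ω H).ncard : ℝ)) atTop
        (𝓝 0)) ∧
    (∀ (K : Type) [Field K] [NumberField K] (B : ℕ) (R : ℝ) (c : K), Escapes B R c →
      ∀ (F : K[X]) (δ : K), 2 ≤ F.natDegree → F.coeff 0 = c → δ ≠ 0 → Moved K F.natDegree B →
        ∀ T : Finset (HeightOneSpectrum (𝓞 K)), ContainsBad F δ T →
        (∀ v, v ∉ T → FinitePlace.mk v (F.natDegree : K) = 1) → logNorm T < R →
        ∀ (L : Type) [Field L] [NumberField L] [Algebra K L], AbelianOver B K L →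
          ∀ (P : L × L) (m : ℕ), 1 ≤ m → (henon L F δ)^[m] P ≠ P) ∧
    (∀ (K : Type) [Field K] [NumberField K] (B d : ℕ),
      ((∃ p : ℕ, p.Prime ∧ p ∣ d ∧ Module.finrank ℚ K * B + 1 < p) → Moved K d B) ∧
      ((∃ p k : ℕ, p.Prime ∧ p ^ k ∣ d ∧ B * 3 ^ (Module.finrank ℚ K * B) < p ^ k) →
        Moved K d B) ∧
      ((B * 3 ^ (Module.finrank ℚ K * B)).factorial < d → Moved K d B) ∧
      (1 ≤ d → (¬ ∃ z : K, IsPrimitiveRoot z d) → Moved K d 1)) ∧
    (∀ (K : Type) [Field K] [NumberField K] (d : ℕ), 2 ≤ d → (∃ z : K, IsPrimitiveRoot z d) →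
      ∀ c : K, (X ^ d + C c : K[X]).natDegree = d ∧ (X ^ d + C c : K[X]).coeff 0 = c ∧
        ContainsBad (X ^ d + C c : K[X]) (-1) ∅ ∧
        ∃ (L : Type) (_ : Field L) (_ : NumberField L) (_ : Algebra K L),
          AbelianOver 1 K L ∧ ∃ P : L × L, henon L (X ^ d + C c : K[X]) (-1) P = P) ∧
    (∀ (K : Type) [Field K] [NumberField K] (L : Type) [Field L] [NumberField L] [Algebra K L]
      (F : K[X]) (δ : K), δ ≠ 0 → ∀ P : L × L,
        henonInv L F δ (henon L F δ P) = P ∧ henon L F δ (henonInv L F δ P) = P) ∧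
    (∀ (K : Type) [Field K] [NumberField K] (F : K[X]) (δ : K), 1 ≤ F.natDegree →
      ∃ T : Finset (HeightOneSpectrum (𝓞 K)), ContainsBad F δ T ∧
        (∀ v, v ∉ T → FinitePlace.mk v (F.natDegree : K) = 1) ∧
        logNorm T ≤ others F δ + h (F.natDegree : K)) ∧
    (∀ (K : Type) [Field K] [NumberField K] (J : Type v) [Fintype J]
      (ω : Module.Basis J ℤ (𝓞 K)) (H : ℕ),
      (Box ω H).ncard = ((2 * H + 1) ^ Module.finrank ℚ K) ^ 2) ∧
    (∀ (K : Type) [Field K] [NumberField K] (B : ℕ) (F : K[X]) (δ : K), 2 ≤ F.natDegree →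
      δ ≠ 0 → ∀ v : HeightOneSpectrum (𝓞 K), PoleAt B F δ v →
        ∀ (L : Type) [Field L] [NumberField L] [Algebra K L], AbelianOver B K L → ∀ P : L × L,
          (∀ k : ℕ, F.natDegree ^ k *
            (Real.log (Ideal.absNorm v.asIdeal) / Module.finrank ℚ K) ≤
            height ((henon L F δ)^[k + 1] P) + height ((henonInv L F δ)^[k + 1] P)) ∧
          ∀ m : ℕ, 1 ≤ m → (henon L F δ)^[m] P ≠ P) := by
  refine ⟨fun K _ _ B R J _ ω => part_one K B R J ω, ?_, ?_,
    fun K _ _ d hd hz c => part_four hd hz c, fun K _ _ L _ _ _ F δ hδ P => part_six L F δ hδ P,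
    fun K _ _ F δ hd => part_seven F δ hd, fun K _ _ J _ ω H => box_card ω H,
    fun K _ _ B F δ hd hδ v hv L _ _ _ hL P => part_eight F δ hd hδ v hv L hL P⟩
  · intro K _ _ B R c hc F δ hd hF hδ hmov T hT hTd ho L _ _ _ hL P m hm
    exact part_two hc F δ hd hF hδ hmov T hT hTd ho L hL P m hm
  · intro K _ _ B d
    refine ⟨?_, ?_, ?_, ?_⟩
    · rintro ⟨p, hp, hpd, h⟩
      exact Pool.Agent.H16.AB.cyc_of_prime hp hpd h
    · rintro ⟨p, k, hp, hpd, h⟩
      exact Pool.Agent.H16.AB.cyc_of_primePow hp hpd h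
    · exact fun h => Pool.Agent.H16.AB.cyc_of_large h
    · exact fun hd h => Pool.Agent.H16.AB.cyc_one hd h

end Pool.Agent.Results.MP_0e6b5f_nt.AbelianPoints
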