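import Mathlib
import Pool.Agent.H16.LF.Padic

/-!
# Uniform boundedness for Hénon maps over `p`-adic fields, in every degree over `ℚ`: an exact criterion

Let `k` be a finite extension of `ℚ_p` and `d ≥ 2`. We prove that the following are equivalent:

1. `k` contains no `d`-th root of unity except `1`;
2. there is a constant `C` such that for EVERY field `K` which can be embedded in `k` (so for all
   number fields, of any degree over `ℚ`, with a place where the completion embeds in `k`, and also
   for fields like that of the totally `p`-adic numbers) and all `a, b, δ ∈ K`, `a ≠ 0`, the map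
   `f(x, y) = (y, a y^d + b - δ x)` has at most `C` periodic points in `K²`;
3. for all rational numbers `a, b, δ`, `a ≠ 0 ≠ δ`, this map has only finitely many periodic points
   in `k²`.

For `k = ℚ_p` the condition is that `d` is odd (`p = 2`) or prime to `p - 1` (`p` odd); there is no
condition that `d` is prime to `p`. The constant depends only on `d` and the number `N` of the residue
classes of the integers of `k` modulo `p²`: all periodic points `P` satisfy `f^((N²)!²) (P) = P`.
More generally this is proved for all `f(x, y) = (y, F(y) - δ x)` for which `F` is tame: if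
`|F(c + T) - F(c)| ≤ max(1, |δ|) |T|` then all the terms `F^(i)(c) T^i / i!`, `i ≥ 1`, of the Taylor
expansion are of this size. We prove that all compositions of affine maps and of power maps
`y ↦ y^d` with 1. are tame, and so are the polynomials with dominated middle terms if `d` is prime to
`p` and 1. holds. On the other hand, if `k` contains `m` roots of unity of order dividing `d` and
`|a| |d|² > max(1, |δ|)` then `f(x, y) = (y, a (y^d - 1) - δ x)` has at least `m^n` points
`P ∈ k²` with `f^n (P) = P`; for `m = d` all the periodic points of `f` over all extensions of `k` lie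
in `k²`. In particular for `d ∣ p - 1` the coordinates of all the periodic points of
`f(x, y) = (y, (y^d - 1) / p - x)` are totally `p`-adic algebraic numbers.

Proof. Let `(y_t)` be the sequence of the coordinates of a periodic orbit, `|δ| ≤ 1` (otherwise
consider the inverse map). Let `γ = y_s - y_t` be the largest difference of two of its members. Then
`F(y_s) - F(y_t)` is at most `|γ|`, so that the Taylor expansion of `F` at `c = y_t` has terms of size
at most `|γ|` at `γ`, and `w_t = (y_t - c) / γ` satisfies a recursion with integral coefficients. Its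
period is bounded by an argument modulo `p²`. For power maps the needed property of the binomial
expansion of `(c + T)^d - c^d` is proved for prime `d` by Hensel's lemma, and it is stable under
composition. The converse is proved by a contraction argument near the words of roots of unity.
-/

set_option autoImplicit false

namespace Pool.Agent.Results.MP_0e6b5f_nt.PadicCriterion

open Polynomial Function

/-- The Hénon map `f(x, y) = (y, F(y) - δ x)`. -/
noncomputable def henon {k : Type} [Field k] (F : k[X]) (δ : k) (P : k × k) : k × k :=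
  (P.2, F.eval P.2 - δ * P.1)

/-- The periodic points of `f` in `k²`. -/
def perPoints {k : Type} [Field k] (F : k[X]) (δ : k) : Set (k × k) :=
  {P | ∃ n : ℕ, 0 < n ∧ (henon F δ)^[n] P = P}

/-- The polynomial `a y^d + b`. -/
noncomputable def uni {k : Type} [Field k] (d : ℕ) (a b : k) : k[X] := C a * X ^ d + C b

/-- The integers of `k` have at most `N` residue classes modulo `p²`. For an extension of degree `n`
of `ℚ_p` this holds with `N = p^(2n)`. -/
def Classes (k : Type) [NormedField k] (p N : ℕ) : Prop :=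
  ∃ t : Finset k, t.card ≤ N ∧ ∀ x : k, ‖x‖ ≤ 1 → ∃ y ∈ t, ‖x - y‖ ≤ ‖(p : k)‖ ^ 2

/-- The universal period `(N²)!²`. -/
def period (N : ℕ) : ℕ := (N ^ 2).factorial * (N ^ 2).factorial

/-- If `|F(c + T) - F(c)| ≤ Δ |T|`, then `|F^(i)(c) T^i / i!| ≤ Δ |T|` for all `i ≥ 1`.
(`(hasseDeriv i F).eval c` is `F^(i)(c) / i!`.) -/
def Tame {k : Type} [NormedField k] (F : k[X]) (Δ : ℝ) : Prop :=
  ∀ c T : k, T ≠ 0 → ‖F.eval (c + T) - F.eval c‖ ≤ Δ * ‖T‖ →
    ∀ i : ℕ, 1 ≤ i → ‖(hasseDeriv i F).eval c‖ * ‖T‖ ^ (i - 1) ≤ Δ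

/-- Compositions of affine maps and of power maps `y ↦ y^d` for which `k` has no `d`-th root of
unity except `1`. -/
inductive Tower {k : Type} [Field k] : k[X] → Prop
  | affine (a b : k) : Tower (C a * X + C b)
  | power (d : ℕ) (hd : 1 ≤ d) (h : ∀ x : k, x ^ d = 1 → x = 1) : Tower (X ^ d)
  | comp (F G : k[X]) (hF : Tower F) (hG : Tower G) : Tower (F.comp G)

/-- `|a_i|^(d-1) ≤ max(1, |δ|)^(d-i) |a_d|^(i-1)` for `1 ≤ i < d`, where `F = a_0 + ... + a_d y^d`. -/
def Dominated {k : Type} [NormedField k] (F : k[X]) (δ : k) : Prop :=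
  ∀ i, 1 ≤ i → i < F.natDegree → ‖F.coeff i‖ ^ (F.natDegree - 1) ≤
    max 1 ‖δ‖ ^ (F.natDegree - i) * ‖F.leadingCoeff‖ ^ (i - 1)

/-- The criterion for `ℚ_p`: `d` is odd if `p = 2`, and prime to `p - 1` if `p` is odd. -/
def Good (p d : ℕ) : Prop := (p = 2 → Odd d) ∧ Nat.Coprime d (p - 1)

lemma encard_le_of_finset {α : Type*} (s : Set α) (n : ℕ)
    (h : ∀ Y : Finset α, (∀ P ∈ Y, P ∈ s) → Y.card ≤ n) : s.encard ≤ n := by
  classical
  by_contra hcon
  push Not at hcon
  have h1 : ((n + 1 : ℕ) : ℕ∞) ≤ s.encard := by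
    push_cast
    exact Order.add_one_le_of_lt hcon
  obtain ⟨t, hts, ht⟩ := Set.exists_subset_encard_eq h1
  have hfin : t.Finite := Set.finite_of_encard_eq_coe ht
  have h2 := h hfin.toFinset (fun P hP => hts (by simpa using hP))
  have h3 : t.encard = (hfin.toFinset.card : ℕ∞) := hfin.encard_eq_coe_toFinset_card
  rw [h3] at ht
  have h4 : hfin.toFinset.card = n + 1 := by exact_mod_cast ht
  omega

lemma natDegree_uni {k : Type} [Field k] {d : ℕ} (hd : 2 ≤ d) {a : k} (ha : a ≠ 0) (b : k) :
    (uni d a b).natDegree = d := by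
  unfold uni
  rw [natDegree_add_C, natDegree_C_mul_X_pow d a ha]

lemma uni_map {K k : Type} [Field K] [Field k] (σ : K →+* k) (d : ℕ) (a b : K) :
    (uni d a b).map σ = uni d (σ a) (σ b) := by
  simp [uni]

lemma rigid_uni {k : Type} [NormedField k] [IsUltrametricDist k] [CharZero k] [CompleteSpace k]
    {d : ℕ} (hd : 2 ≤ d) (h : ∀ x : k, x ^ d = 1 → x = 1) (a b : k) :
    Pool.Agent.H16.LF.Rigid (uni d a b) := by
  have h1 := (Pool.Agent.H16.LF.rigid_affine a b).comp
    (Pool.Agent.H16.LF.rigid_pow d (by omega) h)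
  have e : (C a * X + C b : k[X]).comp (X ^ d) = uni d a b := by simp [uni]
  rwa [e] at h1

lemma hp_eq {k : Type} [NormedField k] (a : k) (d : ℕ) :
    Pool.Agent.H16.LF.hp a d = uni d a (-a) := by
  simp only [Pool.Agent.H16.LF.hp, uni, map_neg]
  ring

/-- the bound for all subfields -/
lemma bound_sub {k : Type} [NormedField k] [IsUltrametricDist k] [CharZero k] [CompleteSpace k]
    {p N : ℕ} (hp : p.Prime) (hwp : ‖(p : k)‖ < 1) (hN : Classes k p N) {d : ℕ} (hd : 2 ≤ d)
    (h : ∀ x : k, x ^ d = 1 → x = 1) (K : Type) [Field K] (σ : K →+* k) (a b δ : K) (ha : a ≠ 0) :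
    (perPoints (uni d a b) δ).encard ≤ ((d ^ period N : ℕ) : ℕ∞) := by
  apply encard_le_of_finset
  intro S hS
  have hdeg := natDegree_uni hd ha b
  have hinj : Injective (Prod.map σ σ) := σ.injective.prodMap σ.injective
  have key := Pool.Agent.H504D.card_periodic_le (uni d a b) δ S (period N)
    (Pool.Agent.H16.LF.uper_pos N) (by rw [hdeg]; exact hd) (by
      intro P hP
      obtain ⟨n, hn, h1⟩ := hS P hP
      apply hinj
      rw [Pool.Agent.Q195.HD.hen_map, uni_map]
      refine Pool.Agent.H16.LF.tame_points hp hwp hN ((rigid_uni hd h _ _).tame _) hn ?_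
      rw [← uni_map, ← Pool.Agent.Q195.HD.hen_map]
      exact congrArg (Prod.map σ σ) h1)
  rwa [hdeg] at key

lemma infinite_rational {k : Type} [NormedField k] [IsUltrametricDist k] [CharZero k]
    [CompleteSpace k] {p : ℕ} (hp : p.Prime) (hwp : ‖(p : k)‖ < 1) {d : ℕ} (hd : 2 ≤ d) {x : k}
    (hx : x ^ d = 1) (hx1 : x ≠ 1) :
    ∃ a : ℚ, a ≠ 0 ∧ (perPoints (uni d (a : k) ((-a : ℚ) : k)) 1).Infinite := by
  have hd0 : (d : k) ≠ 0 := by exact_mod_cast (by omega : d ≠ 0)
  have hdp : 0 < ‖(d : k)‖ ^ 2 := by positivity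
  have hp0 : (p : k) ≠ 0 := by exact_mod_cast hp.ne_zero
  have hpp : 0 < ‖(p : k)‖ := norm_pos_iff.2 hp0
  obtain ⟨m, hm⟩ := exists_pow_lt_of_lt_one hdp hwp
  have hpq : (p : ℚ) ≠ 0 := by exact_mod_cast hp.ne_zero
  refine ⟨((p : ℚ) ^ m)⁻¹, inv_ne_zero (pow_ne_zero _ hpq), ?_⟩
  have h := Pool.Agent.H16.LF.infinite_periodic (d := d) (by omega) hd0
    (a := (((p : ℚ) ^ m)⁻¹ : ℚ)) (δ := (1 : k)) (by
      push_cast
      rw [norm_one, max_self, norm_inv, norm_pow, inv_mul_eq_div, one_lt_div (by positivity)]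
      exact hm) hx hx1
  rw [hp_eq] at h
  push_cast at h ⊢
  exact h

/-- **Uniform boundedness for Hénon maps over `p`-adic fields.**

(1) Let `k` be a nonarchimedean normed field of characteristic zero, `|p| < 1`, with at most `N` residue
classes of integers modulo `p²`, and let `F` be tame for `max(1, |δ|)`. Then all periodic points
`P ∈ k²` of `f(x, y) = (y, F(y) - δ x)` satisfy `f^period(N) (P) = P`, and there are at most
`(deg F)^period(N)` of them.
(2) Over complete fields all towers of affine maps and power maps are tame, and so are the polynomials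
with dominated middle terms if `|deg F| = 1` and `x^(deg F) = 1` only for `x = 1`.
(3) Let `k` be complete, with at most `N` classes, and let `x^d = 1` only for `x = 1`. For every
field `K` that can be embedded in `k` and all `a, b, δ ∈ K`, `a ≠ 0`, at most `d^period(N)` points of
`K²` are periodic for `f(x, y) = (y, a y^d + b - δ x)`.
(4) The criterion for local fields.
(5) Horseshoes.
(6) The `p`-adic numbers. -/
theorem result :
    -- 1. tame maps have a universal period
    (∀ (k : Type) [NormedField k] [IsUltrametricDist k] [CharZero k] (p N : ℕ), p.Prime →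
      ‖(p : k)‖ < 1 → Classes k p N → ∀ (F : k[X]) (δ : k), 2 ≤ F.natDegree →
        Tame F (max 1 ‖δ‖) → (∀ P ∈ perPoints F δ, (henon F δ)^[period N] P = P) ∧
          (perPoints F δ).encard ≤ ((F.natDegree ^ period N : ℕ) : ℕ∞)) ∧
    -- 2. tame polynomials over complete fields
    (∀ (k : Type) [NormedField k] [IsUltrametricDist k] [CharZero k] [CompleteSpace k],
      (∀ F : k[X], Tower F → ∀ Δ : ℝ, Tame F Δ) ∧
      ∀ (F : k[X]) (δ : k), 2 ≤ F.natDegree → ‖(F.natDegree : k)‖ = 1 →
        (∀ x : k, x ^ F.natDegree = 1 → x = 1) → Dominated F δ → Tame F (max 1 ‖δ‖)) ∧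
    -- 3. uniform boundedness in all fields which can be embedded in `k`
    (∀ (k : Type) [NormedField k] [IsUltrametricDist k] [CharZero k] [CompleteSpace k]
      (p N d : ℕ), p.Prime → ‖(p : k)‖ < 1 → Classes k p N → 2 ≤ d →
      (∀ x : k, x ^ d = 1 → x = 1) → ∀ (K : Type) [Field K] (_ : K →+* k) (a b δ : K), a ≠ 0 →
        (perPoints (uni d a b) δ).encard ≤ ((d ^ period N : ℕ) : ℕ∞)) ∧
    -- 4. the criterion for local fields
    (∀ (k : Type) [NormedField k] [IsUltrametricDist k] [CharZero k] [ProperSpace k] (p d : ℕ),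
      p.Prime → ‖(p : k)‖ < 1 → 2 ≤ d → List.TFAE [
        ∀ x : k, x ^ d = 1 → x = 1,
        ∃ C : ℕ, ∀ (K : Type) [Field K] (_ : K →+* k) (a b δ : K), a ≠ 0 →
          (perPoints (uni d a b) δ).encard ≤ (C : ℕ∞),
        ∀ a b δ : ℚ, a ≠ 0 → δ ≠ 0 → (perPoints (uni d (a : k) (b : k)) (δ : k)).Finite]) ∧
    -- 5. horseshoes
    (∀ (k : Type) [NormedField k] [IsUltrametricDist k] [CharZero k] [CompleteSpace k] (d : ℕ),
      2 ≤ d → ∀ a δ : k, max 1 ‖δ‖ < ‖a‖ * ‖(d : k)‖ ^ 2 →
      ∀ R : Finset k, (∀ x ∈ R, x ^ d = 1) →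
        (∀ n : ℕ, 0 < n → ∃ S : Finset (k × k), S.card = R.card ^ n ∧
          ∀ P ∈ S, (henon (uni d a (-a)) δ)^[n] P = P) ∧
        (R.card = d → ∀ (Ω : Type) [Field Ω] (ι : k →+* Ω),
          ∀ P ∈ perPoints (uni d (ι a) (-ι a)) (ι δ), ∃ Q : k × k, P = (ι Q.1, ι Q.2))) ∧
    -- 6. the `p`-adic numbers
    (∀ (p : ℕ) [Fact p.Prime] (d : ℕ), 2 ≤ d →
      (Good p d → ∀ (K : Type) [Field K] (_ : K →+* ℚ_[p]) (a b δ : K), a ≠ 0 →
        (perPoints (uni d a b) δ).encard ≤ ((d ^ period (p ^ 2) : ℕ) : ℕ∞)) ∧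
      (¬ Good p d → ∃ a : ℚ, a ≠ 0 ∧ (perPoints (uni d (a : ℚ_[p]) ((-a : ℚ) : ℚ_[p])) 1).Infinite) ∧
      (d ∣ p - 1 → ∀ (Ω : Type) [Field Ω] (ι : ℚ_[p] →+* Ω),
        ∀ P ∈ perPoints (uni d ((p : Ω)⁻¹) (-(p : Ω)⁻¹)) 1,
          ∃ Q : ℚ_[p] × ℚ_[p], P = (ι Q.1, ι Q.2))) := by
  refine ⟨?_, ?_, ?_, ?_, ?_, ?_⟩
  · intro k _ _ _ p N hp hwp hN F δ hF hT
    have key : ∀ P ∈ perPoints F δ, (henon F δ)^[period N] P = P := by
      rintro P ⟨n, hn, hP⟩
      exact Pool.Agent.H16.LF.tame_points hp hwp hN hT hn hP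
    refine ⟨key, ?_⟩
    apply encard_le_of_finset
    intro S hS
    exact Pool.Agent.H504D.card_periodic_le F δ S (period N) (Pool.Agent.H16.LF.uper_pos N) hF
      (fun P hP => key P (hS P hP))
  · intro k _ _ _ _
    refine ⟨?_, ?_⟩
    · intro F hF Δ
      have hR : Pool.Agent.H16.LF.Rigid F := by
        induction hF with
        | affine a b => exact Pool.Agent.H16.LF.rigid_affine a b
        | power d hd h => exact Pool.Agent.H16.LF.rigid_pow d (by omega) h
        | comp F G _ _ h1 h2 => exact h1.comp h2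
      exact hR.tame Δ
    · intro F δ hd hn hroot hdom
      exact Pool.Agent.H16.LF.tame_of_mid hdom hd hn
        (Pool.Agent.H16.LF.rigid_pow F.natDegree (by omega) hroot)
  · intro k _ _ _ _ p N d hp hwp hN hd hroot K _ σ a b δ ha
    exact bound_sub hp hwp hN hd hroot K σ a b δ ha
  · intro k _ _ _ _ p d hp hwp hd
    have hcs : CompleteSpace k := inferInstance
    tfae_have 1 → 2 := by
      intro h
      obtain ⟨N, hN⟩ := Pool.Agent.H16.LF.classes_of_proper k hp
      exact ⟨d ^ period N, fun K _ σ a b δ ha => bound_sub hp hwp hN hd h K σ a b δ ha⟩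
    tfae_have 2 → 3 := by
      rintro ⟨C, hC⟩ a b δ ha _
      have ha' : (a : k) ≠ 0 := by exact_mod_cast ha
      exact Set.finite_of_encard_le_coe (hC k (RingHom.id k) a b δ ha')
    tfae_have 3 → 1 := by
      intro h x hx
      by_contra hx1
      obtain ⟨a, ha, hinf⟩ := infinite_rational hp hwp hd hx hx1
      apply hinf
      have := h a (-a) 1 ha one_ne_zero
      simpa using this
    tfae_finish
  · intro k _ _ _ _ d hd a δ h R hR
    have hd0 : (d : k) ≠ 0 := by exact_mod_cast (by omega : d ≠ 0)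
    refine ⟨?_, ?_⟩
    · intro n hn
      have := Pool.Agent.H16.LF.horseshoe (by omega) hd0 h R hR n hn
      rw [hp_eq] at this
      exact this
    · rintro hRc Ω _ ι P ⟨n, hn, hP⟩
      refine Pool.Agent.H16.LF.all_points hd hd0 h R hR hRc n hn Ω ι P ?_
      rw [hp_eq, uni_map, map_neg]
      exact hP
  · intro p hpf d hd
    have hp : p.Prime := hpf.out
    have hwp : ‖(p : ℚ_[p])‖ < 1 := Padic.norm_p_lt_one
    refine ⟨?_, ?_, ?_⟩
    · intro hg K _ σ a b δ ha
      exact bound_sub hp hwp (Pool.Agent.H16.LF.classes_padic p) hd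
        (Pool.Agent.H16.LF.roots_padic p (by omega) hg) K σ a b δ ha
    · intro hg
      obtain ⟨x, hx, hx1⟩ := Pool.Agent.H16.LF.exists_root p (by omega) hg
      exact infinite_rational hp hwp hd hx hx1
    · rintro hdvd Ω _ ι P ⟨n, hn, hP⟩
      obtain ⟨R, hR, hRc⟩ := Pool.Agent.H16.LF.all_roots p (by omega) hdvd
      have hd0 : (d : ℚ_[p]) ≠ 0 := by exact_mod_cast (by omega : d ≠ 0)
      refine Pool.Agent.H16.LF.all_points (a := ((p : ℚ_[p])⁻¹)) (δ := 1) hd hd0 ?_ R hR hRc n hn
        Ω ι P ?_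
      · rw [norm_one, max_self, norm_inv, Padic.norm_p, inv_inv,
          Pool.Agent.H16.LF.norm_dvd p (by omega) hdvd, one_pow, mul_one]
        exact_mod_cast hp.one_lt
      · rw [hp_eq, uni_map, map_neg, map_inv₀, map_natCast, map_one]
        exact hP

end Pool.Agent.Results.MP_0e6b5f_nt.PadicCriterion
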