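import Pool.Agent.H16.HE.Word
import Pool.Agent.H16.HE.Tup

/-!
# MP_0e6b5f_nt: periodic points of polynomial automorphisms of the plane

By a theorem of Friedland and Milnor every polynomial automorphism of the affine plane is conjugate to an
affine or elementary automorphism or to a composition `f_n ∘ … ∘ f_1` of generalized Hénon maps
`f_t(x, y) = (y, φ_t(y) - δ_t x)`. We prove that 100% of the compositions of Hénon maps of given degrees
over a number field have no periodic points of small degree, whatever the number and the order of the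
factors and whatever the (integral) Jacobians.

Let `K` be a number field, `D ∈ O_K` not zero, and let `d_1, …, d_s ≥ 2`. For 100% of the `s`-tuples of
vectors `(b_j, c_{j0}, …, c_{j d_j})` of integers of `K` the polynomials
`φ_j = (c_{j0} + c_{j1} y + … + c_{j d_j} y^{d_j}) / b_j` have the following property. Let
`f = f_n ∘ … ∘ f_1` be ANY composition of maps `f_t(x, y) = (y, φ_{j_t}(y) - δ_t x)` with
`δ_t ∈ O_K[1/D]`, of any length `n`, with repetitions, with Jacobians that may change from step to step.
Then `d_j` divides the degree `[K(P) : K]` of every periodic point `P` of `f`, for every `j` among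
`j_1, …, j_n`. So `f` has no periodic points `P` with `[K(P) : K] < max d_{j_t}`, or with a degree
`[K(P) : K]` which is not divisible by the least common multiple of the `d_{j_t}`; for one such tuple
this holds for all (infinitely many) compositions `f` at once.

Proof. Let `v` be a prime of `K` which divides `b_j`, but not `D` and not the leading coefficients
`c_{i d_i}` of any of the polynomials, such that `F_j = c_{j0} + … + c_{j d_j} y^{d_j}` is irreducible
modulo `v`. The other `b_i` may be divisible by `v` or not. Let `w` be a place of `K(P)` above `v`. The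
coordinates `s_k` of the points of the cycle of `P` satisfy `s_{k+2} = φ_{j_k}(s_{k+1}) - δ_k s_k`. If some
`s_k` is not integral at `w`, take one of maximal absolute value; since all the `φ_i` expand at the
elements which are not integral, the next one is larger. So all `s_k` are integral at `w`, and
`F_j(s_{k+1}) = b_j (s_{k+2} + δ_k s_k)` vanishes in the residue field of `w` if `j_k = j`. So `d_j`
divides the residue degree of every `w` above `v`, and hence `[K(P) : K]`. Such a prime exists for almost
all tuples, since the conditions hold for a proportion of at least `(1 / (4 d_j 2^s)) (1/N v - 1/(N v)²)`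
of all tuples modulo `v²`, and the sum of the `1/N v` diverges.
-/

set_option autoImplicit false

open Polynomial NumberField Filter Topology

namespace Pool.Agent.Results.MP_0e6b5f_nt.PolynomialAutomorphisms

universe u w

/-- The polynomial `(c₁ + c₂ y + … + c_{d+1} y^d) / c₀` over `K`, for a vector `(c₀, …, c_{d+1})` of
integers of `K`. -/
noncomputable def poly {K : Type u} [Field K] {d : ℕ} (c : Fin (d + 2) → 𝓞 K) : K[X] :=
  C ((c 0 : K)⁻¹) * ∑ i : Fin (d + 1), C (c i.succ : K) * X ^ (i : ℕ)

/-- The generalized Hénon map `(x, y) ↦ (y, φ(y) - δ x)` of the plane over the algebraic closure. -/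
noncomputable def henon {K : Type u} [Field K] (φ : K[X]) (δ : K)
    (P : AlgebraicClosure K × AlgebraicClosure K) : AlgebraicClosure K × AlgebraicClosure K :=
  (P.2, aeval P.2 φ - algebraMap K (AlgebraicClosure K) δ * P.1)

/-- The composition `f_n ∘ … ∘ f_1` for a word `l = [(j_1, δ_1), …, (j_n, δ_n)]`, where `f_t` is the
Hénon map `(x, y) ↦ (y, φ_j(y) - δ x)`, `(j, δ) = (j_t, δ_t)`, and `φ_j` is given by the vector `c j`. -/
noncomputable def composition {K : Type u} [Field K] {s : ℕ} {d : Fin s → ℕ}
    (c : (j : Fin s) → Fin (d j + 2) → 𝓞 K) (l : List (Fin s × K))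
    (P : AlgebraicClosure K × AlgebraicClosure K) : AlgebraicClosure K × AlgebraicClosure K :=
  l.foldl (fun Q a => henon (poly (c a.1)) a.2 Q) P

/-- The element `δ` of `K` lies in `O_K[1/D]`. -/
def IntegralAway {K : Type u} [Field K] (D : 𝓞 K) (δ : K) : Prop :=
  ∃ (k : ℕ) (r : 𝓞 K), (D : K) ^ k * δ = r

/-- The tuples `c` for which all `φ_j` have degree `d j`, and for every composition `f` of Hénon maps
`(x, y) ↦ (y, φ_j(y) - δ x)`, with any `j` and any `δ ∈ O_K[1/D]` at each step, and every periodic point
`P` of `f` over the algebraic closure, `[K(P) : K]` is divisible by `d j` for each `j` which is used. -/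
def Good {K : Type u} [Field K] (D : 𝓞 K) {s : ℕ} (d : Fin s → ℕ) :
    Set ((j : Fin s) → Fin (d j + 2) → 𝓞 K) :=
  {c | (∀ j, c j 0 ≠ 0 ∧ (poly (c j)).natDegree = d j) ∧
    ∀ l : List (Fin s × K), (∀ a ∈ l, IntegralAway D a.2) →
      ∀ P : AlgebraicClosure K × AlgebraicClosure K,
        (∃ n : ℕ, 0 < n ∧ (composition c l)^[n] P = P) →
          ∀ a ∈ l, d a.1 ∣ Module.finrank K (IntermediateField.adjoin K {P.1, P.2})}

/-- The tuples all of whose entries have coordinates of absolute value at most `H` in the integral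
basis `ω`. -/
def Box {K : Type u} [Field K] {J : Type w} (ω : Module.Basis J ℤ (𝓞 K)) {s : ℕ} (d : Fin s → ℕ)
    (H : ℕ) : Set ((j : Fin s) → Fin (d j + 2) → 𝓞 K) :=
  {c | ∀ j i t, |ω.repr (c j i) t| ≤ (H : ℤ)}

section proof

open IsDedekindDomain Pool.Agent.TH377.Dyn Pool.Agent.TH377.Sup Pool.Agent.H16.HE

lemma poly_eq {K : Type u} [Field K] {d : ℕ} (c : Fin (d + 2) → 𝓞 K) :
    poly c = C ((c 0 : K)⁻¹) * (num c).map (algebraMap (𝓞 K) K) := by
  rw [poly, num, pol_map]
  rfl

/-- iterates of a composition -/
lemma composition_iterate {K : Type u} [Field K] {s : ℕ} {d : Fin s → ℕ}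
    (c : (j : Fin s) → Fin (d j + 2) → 𝓞 K) (l : List (Fin s × K)) (n : ℕ)
    (P : AlgebraicClosure K × AlgebraicClosure K) :
    (composition c l)^[n] P = composition c (List.replicate n l).flatten P := by
  induction n generalizing P with
  | zero => rfl
  | succ n ih =>
    rw [Function.iterate_succ_apply, ih, List.replicate_succ, List.flatten_cons]
    unfold composition
    rw [List.foldl_append]

theorem good_of {K : Type u} [Field K] [NumberField K] (D : 𝓞 K) {s : ℕ} (d : Fin s → ℕ)
    (hd : ∀ j, 2 ≤ d j) (c : (j : Fin s) → Fin (d j + 2) → 𝓞 K) (hc : c ∉ Unfit K d D) :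
    c ∈ Good D d := by
  have h1 : ∀ j₀, ∃ v : HeightOneSpectrum (𝓞 K), D ∉ v.asIdeal ∧ Fit v c j₀ := by
    intro j₀
    by_contra h
    exact hc ⟨j₀, h⟩
  have h0 : ∀ j, c j 0 ≠ 0 := by
    intro j h0
    obtain ⟨v, -, -, h2, -⟩ := h1 j
    apply h2
    rw [h0]
    exact zero_mem _
  have hlast : ∀ j, c j (Fin.last (d j)).succ ≠ 0 := by
    intro j h2
    obtain ⟨v, -, -, -, -, h3⟩ := h1 j
    apply h3 j
    rw [h2]
    exact zero_mem _
  have hnum : ∀ j, (num (c j)).natDegree = d j := fun j =>
    pol_natDegree (fun i : Fin (d j + 1) => c j i.succ) (hlast j)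
  refine ⟨fun j => ⟨h0 j, ?_⟩, ?_⟩
  · have h2 : ((c j 0 : K)⁻¹) ≠ 0 := by
      rw [Ne, inv_eq_zero]
      exact_mod_cast h0 j
    rw [poly_eq, natDegree_C_mul h2,
      natDegree_map_eq_of_injective (FaithfulSMul.algebraMap_injective (𝓞 K) K), hnum]
  · rintro l hl P ⟨n, hn, hP⟩ a ha
    rw [composition_iterate] at hP
    set l' := (List.replicate n l).flatten with hl'
    have ha' : a ∈ l' := by
      rw [hl', List.mem_flatten]
      exact ⟨l, List.mem_replicate.2 ⟨hn.ne', rfl⟩, ha⟩
    have hl2 : ∀ a ∈ l', IntegralAway D a.2 := by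
      intro a ha
      rw [hl', List.mem_flatten] at ha
      obtain ⟨m, hm, ham⟩ := ha
      rw [(List.mem_replicate.1 hm).2] at ham
      exact hl a ham
    let L : IntermediateField K (AlgebraicClosure K) := IntermediateField.adjoin K {P.1, P.2}
    have hint : ∀ x : (AlgebraicClosure K), IsIntegral K x := fun x => Algebra.IsIntegral.isIntegral x
    have hfd : FiniteDimensional K L :=
      IntermediateField.finiteDimensional_adjoin fun x _ => hint x
    have hNF : NumberField L := NumberField.of_module_finite K L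
    have hP1 : P.1 ∈ L := IntermediateField.subset_adjoin K _ (by simp)
    have hP2 : P.2 ∈ L := IntermediateField.subset_adjoin K _ (by simp)
    let b : Fin s × K → 𝓞 K := fun a => c a.1 0
    let F : Fin s × K → (𝓞 K)[X] := fun a => num (c a.1)
    let δ : Fin s × K → K := fun a => a.2
    let val : L × L → AlgebraicClosure K × AlgebraicClosure K := fun Q => (Q.1, Q.2)
    have hval : Function.Injective val := by
      rintro ⟨x, y⟩ ⟨x', y'⟩ h
      have e1 : (x : (AlgebraicClosure K)) = x' := congrArg Prod.fst h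
      have e2 : (y : (AlgebraicClosure K)) = y' := congrArg Prod.snd h
      rw [Subtype.ext e1, Subtype.ext e2]
    have hstep : ∀ (Q : L × L) (a : Fin s × K),
        val (step b F δ Q a) = henon (poly (c a.1)) a.2 (val Q) := by
      intro Q a
      refine Prod.ext rfl ?_
      have e1 : (algebraMap (𝓞 K) L (c a.1 0))⁻¹ *
          ((num (c a.1)).map (algebraMap (𝓞 K) L)).eval Q.2 = aeval Q.2 (poly (c a.1)) := by
        rw [← map_eq (c a.1) Q.2]
        rfl
      change (((algebraMap (𝓞 K) L (c a.1 0))⁻¹ *
          ((num (c a.1)).map (algebraMap (𝓞 K) L)).eval Q.2 - algebraMap K L a.2 * Q.1 : L) : (AlgebraicClosure K)) =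
        aeval (Q.2 : (AlgebraicClosure K)) (poly (c a.1)) - algebraMap K (AlgebraicClosure K) a.2 * (Q.1 : (AlgebraicClosure K))
      rw [e1]
      have e2 : aeval (Q.2 : (AlgebraicClosure K)) (poly (c a.1)) = ((aeval Q.2 (poly (c a.1)) : L) : (AlgebraicClosure K)) :=
        aeval_algebraMap_apply (AlgebraicClosure K) Q.2 (poly (c a.1))
      rw [e2]
      rfl
    have hfold : ∀ (m : List (Fin s × K)) (Q : L × L),
        val (m.foldl (step b F δ) Q) = composition c m (val Q) := by
      intro m
      induction m with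
      | nil => intro Q; rfl
      | cons a m ih =>
        intro Q
        rw [List.foldl_cons, ih, hstep]
        rfl
    let P' : L × L := (⟨P.1, hP1⟩, ⟨P.2, hP2⟩)
    have hP' : l'.foldl (step b F δ) P' = P' := by
      apply hval
      rw [hfold]
      exact hP
    obtain ⟨v, hDv, hfit⟩ := h1 a.1
    obtain ⟨g1, g2, g3, g4⟩ := hfit
    have hres := word_dvd v b F δ l' (fun a _ => h0 a.1)
      (fun a _ => by
        change 2 ≤ (num (c a.1)).natDegree
        rw [hnum]
        exact hd a.1)
      (fun a _ => by
        change (num (c a.1)).leadingCoeff ∉ v.asIdeal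
        rw [num, pol_leadingCoeff (fun i : Fin (d a.1 + 1) => c a.1 i.succ) (hlast a.1)]
        exact g4 a.1)
      (fun a ha => by
        obtain ⟨k, r, hr⟩ := hl2 a ha
        refine ⟨r, D ^ k, fun h => hDv (v.isPrime.mem_of_pow_mem k h), ?_⟩
        change ((D ^ k : 𝓞 K) : K) * a.2 = r
        rw [← hr]
        push_cast
        rfl)
      P' hP' a ha' g1 (num_facts (c a.1) v g3).2.2
    have e3 : (F a).natDegree = d a.1 := hnum a.1
    rwa [e3] at hres

end proof

/-- **100% of the compositions of Hénon maps have no periodic points of small degree.** Let `K` be a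
number field, `D ∈ O_K` not zero, `d_1, …, d_s ≥ 2`, and let `ω` be an integral basis of `K`. The proportion
of the `s`-tuples of vectors `(b_j, c_{j0}, …, c_{j d_j})` in the box of size `H` which have the following
property tends to `1` as `H → ∞`: the polynomials `φ_j = (c_{j0} + … + c_{j d_j} y^{d_j}) / b_j` have
degree `d_j`, and for every composition `f = f_n ∘ … ∘ f_1` of Hénon maps
`f_t(x, y) = (y, φ_{j_t}(y) - δ_t x)`, with any `n`, any `j_t` and any `δ_t ∈ O_K[1/D]`, every periodic
point `P` of `f` has a degree `[K(P) : K]` which is divisible by all the `d_{j_t}`. -/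
theorem result (K : Type u) [Field K] [NumberField K] (D : 𝓞 K) (hD : D ≠ 0) (s : ℕ)
    (d : Fin s → ℕ) (hd : ∀ j, 2 ≤ d j) (J : Type w) [Fintype J] (ω : Module.Basis J ℤ (𝓞 K)) :
    Tendsto (fun H : ℕ => ((Good D d ∩ Box ω d H).ncard : ℝ) / ((Box ω d H).ncard : ℝ))
      atTop (𝓝 1) := by
  have h1 := Pool.Agent.H16.HE.box_tuple d hd D hD ω
  have hfin : ∀ H, (Box ω d H).Finite := fun H => Pool.Agent.H16.HE.boxT_finite ω d H
  have hpos : ∀ H, 0 < (Box ω d H).ncard := by
    intro H
    rw [Set.ncard_pos (hfin H)]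
    refine ⟨fun _ _ => 0, fun j i t => ?_⟩
    rw [map_zero, Finsupp.zero_apply, abs_zero]
    positivity
  have h2 : Tendsto (fun H : ℕ => (((Good D d)ᶜ ∩ Box ω d H).ncard : ℝ) /
      ((Box ω d H).ncard : ℝ)) atTop (𝓝 0) := by
    refine squeeze_zero (fun H => by positivity) (fun H => ?_) h1
    refine div_le_div_of_nonneg_right ?_ (Nat.cast_nonneg _)
    have h3 : (Good D d)ᶜ ∩ Box ω d H ⊆
        Pool.Agent.H16.HE.Unfit K d D ∩ Pool.Agent.H16.HE.BoxT ω d H := by
      rintro c ⟨hc1, hc2⟩
      refine ⟨?_, hc2⟩
      by_contra h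
      exact hc1 (good_of D d hd c h)
    exact_mod_cast Set.ncard_le_ncard h3
      ((Pool.Agent.H16.HE.boxT_finite ω d H).subset Set.inter_subset_right)
  have h3 : ∀ H : ℕ, ((Good D d ∩ Box ω d H).ncard : ℝ) / ((Box ω d H).ncard : ℝ) =
      1 - (((Good D d)ᶜ ∩ Box ω d H).ncard : ℝ) / ((Box ω d H).ncard : ℝ) := by
    intro H
    have h4 : (Good D d ∩ Box ω d H).ncard + ((Good D d)ᶜ ∩ Box ω d H).ncard =
        (Box ω d H).ncard := by
      have h5 := Set.ncard_inter_add_ncard_sdiff_eq_ncard (Box ω d H) (Good D d) (hfin H)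
      rw [Set.inter_comm (Good D d), Set.inter_comm (Good D d)ᶜ, ← Set.sdiff_eq]
      exact h5
    have h5 : ((Good D d ∩ Box ω d H).ncard : ℝ) + (((Good D d)ᶜ ∩ Box ω d H).ncard : ℝ) =
        ((Box ω d H).ncard : ℝ) := by exact_mod_cast h4
    have h6 : ((Box ω d H).ncard : ℝ) ≠ 0 := by exact_mod_cast (hpos H).ne'
    rw [eq_sub_iff_add_eq, ← add_div, h5, div_self h6]
  have h4 := (tendsto_const_nhds (x := (1 : ℝ))).sub h2
  rw [sub_zero] at h4
  exact h4.congr fun H => (h3 H).symm

end Pool.Agent.Results.MP_0e6b5f_nt.PolynomialAutomorphisms
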